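import Mathlib
import Pool.Agent.H29.CircOrd

namespace Pool.Agent.Results.MP_c7ad22_co.OnlyOne

open Pool.Agent.H29.CircOrd

theorem result (k : ℕ) (hk : 1 ≤ k) : (CircDescribed fun _ G => G.Colorable k) ↔ k = 1 :=
  ⟨fun h => by_contra fun h1 => not_circ k (by omega) h, fun h => h ▸ circ_one⟩

end Pool.Agent.Results.MP_c7ad22_co.OnlyOne
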